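import Pool.Agent.helper63.GH.Spec

/-! # Rows gh:* (MP_c367c1_co), row SMS -/

set_option autoImplicit false

namespace Pool.Agent.helper63.GH

universe u

lemma SMS_sum (V : Type u) [Fintype V] :
    ∀ (n : ℕ) (F : List V → ℚ), sm n F = ∑ v : Fin n → V, F (List.ofFn v)
  | 0, F => by
    rw [Fintype.sum_unique]
    simp [sm]
  | n + 1, F => by
    rw [sm, SMS_sum V n]
    rw [← Equiv.sum_comp (Fin.consEquiv fun _ : Fin (n + 1) => V), Fintype.sum_prod_type,
      Finset.sum_comm]
    refine Finset.sum_congr rfl fun v _ => Finset.sum_congr rfl fun w _ => ?_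
    rw [List.ofFn_succ]
    simp [Fin.consEquiv]

lemma SMS_add (V : Type u) [Fintype V] : ∀ (n k : ℕ) (F : List V → ℚ),
      sm (n + k) F = sm k fun r : List V => sm n fun a : List V => F (a ++ r)
  | 0, k, F => by
    rw [Nat.zero_add]
    rfl
  | n + 1, k, F => by
    rw [show n + 1 + k = (n + k) + 1 by omega, sm, SMS_add V n k]
    rfl

theorem SMS : SMS_stmt.{u} := by
  intro V _
  refine ⟨SMS_sum V, SMS_add V, ?_, ?_, ?_⟩
  · intro n k F
    simp only [SMS_sum]
    exact Finset.sum_comm
  · intro n F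
    simp only [SMS_sum]
    exact Finset.sum_comm
  · intro n F q
    simp only [SMS_sum]
    rw [Finset.sum_mul]

end Pool.Agent.helper63.GH
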